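import Pool.Agent.Y782.SA.Stm

/-!
# Project SA: facts on the test function `hf`
-/

set_option autoImplicit false

open MeasureTheory ProbabilityTheory Set Filter Topology
open scoped NNReal ENNReal

namespace Pool.Agent.Y461.SA

open Pool.Agent.Y782.SA

theorem hf_arg (M x : ℝ) : (x ^ 2 + M ^ 2) / (x ^ 2 + 1) = 1 + (M ^ 2 - 1) / (x ^ 2 + 1) := by
  have h : (0 : ℝ) < x ^ 2 + 1 := by positivity
  field_simp
  ring

theorem argp {M : ℝ} (hM : 1 ≤ M) (x : ℝ) : 0 < x ^ 2 + M ^ 2 := by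
  have h1 : 0 < M ^ 2 := pow_pos (by linarith) 2
  have h2 := sq_nonneg x
  linarith

theorem argq (x : ℝ) : 0 < x ^ 2 + 1 := by
  have h2 := sq_nonneg x
  linarith

theorem one_le_arg {M : ℝ} (hM : 1 ≤ M) (x : ℝ) : 1 ≤ (x ^ 2 + M ^ 2) / (x ^ 2 + 1) := by
  rw [hf_arg]
  have h1 : (0 : ℝ) ≤ M ^ 2 - 1 := by nlinarith
  have h2 : 0 ≤ (M ^ 2 - 1) / (x ^ 2 + 1) := div_nonneg h1 (by positivity)
  linarith

theorem hf_nonneg {M : ℝ} (hM : 1 ≤ M) (x : ℝ) : 0 ≤ hf M x := by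
  unfold hf
  have h := Real.log_nonneg (one_le_arg hM x)
  linarith

theorem hf_le_log {M : ℝ} (hM : 1 ≤ M) (x : ℝ) : hf M x ≤ Real.log M := by
  unfold hf
  have h1 : (x ^ 2 + M ^ 2) / (x ^ 2 + 1) ≤ M ^ 2 := by
    rw [div_le_iff₀ (by positivity)]
    have h0 : 1 ≤ M ^ 2 := by nlinarith
    nlinarith [sq_nonneg x]
  have h2 := Real.log_le_log (by have := one_le_arg hM x; linarith) h1
  rw [Real.log_pow] at h2
  push_cast at h2
  linarith

theorem hf_le_inv {M : ℝ} (hM : 1 ≤ M) {x : ℝ} (hx : 0 < x) : hf M x ≤ M ^ 2 / (2 * x ^ 2) := by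
  unfold hf
  have h1 := Real.log_le_sub_one_of_pos
    (show 0 < (x ^ 2 + M ^ 2) / (x ^ 2 + 1) by have := one_le_arg hM x; linarith)
  rw [hf_arg] at h1 ⊢
  have h2 : (M ^ 2 - 1) / (x ^ 2 + 1) ≤ M ^ 2 / x ^ 2 := by
    rw [div_le_div_iff₀ (by positivity) (by positivity)]
    nlinarith [sq_nonneg x, sq_nonneg M]
  have h3 : M ^ 2 / (2 * x ^ 2) = 1 / 2 * (M ^ 2 / x ^ 2) := by
    field_simp
  rw [h3]
  linarith

theorem hf_anti {M : ℝ} (hM : 1 ≤ M) {x y : ℝ} (hx : 0 ≤ x) (hxy : x ≤ y) : hf M y ≤ hf M x := by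
  unfold hf
  have h1 : (y ^ 2 + M ^ 2) / (y ^ 2 + 1) ≤ (x ^ 2 + M ^ 2) / (x ^ 2 + 1) := by
    rw [hf_arg, hf_arg]
    have h0 : (0 : ℝ) ≤ M ^ 2 - 1 := by nlinarith
    have h2 : (M ^ 2 - 1) / (y ^ 2 + 1) ≤ (M ^ 2 - 1) / (x ^ 2 + 1) :=
      div_le_div_of_nonneg_left h0 (by positivity) (by nlinarith)
    linarith
  have h3 := Real.log_le_log (by have := one_le_arg hM y; linarith) h1
  linarith

theorem hf_eq {M : ℝ} (hM : 1 ≤ M) (x : ℝ) :
    hf M x = 1 / 2 * (Real.log (x ^ 2 + M ^ 2) - Real.log (x ^ 2 + 1)) := by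
  unfold hf
  rw [Real.log_div (argp hM x).ne' (argq x).ne']

theorem hf_deriv {M : ℝ} (hM : 1 ≤ M) (x : ℝ) :
    HasDerivAt (hf M) (1 / 2 * (2 * x / (x ^ 2 + M ^ 2) - 2 * x / (x ^ 2 + 1))) x := by
  have h0 : hf M = fun x => 1 / 2 * (Real.log (x ^ 2 + M ^ 2) - Real.log (x ^ 2 + 1)) :=
    funext fun x => hf_eq hM x
  rw [h0]
  have h1 : HasDerivAt (fun x : ℝ => x ^ 2 + M ^ 2) (2 * x) x := by
    simpa using (hasDerivAt_pow 2 x).add_const (M ^ 2)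
  have h2 : HasDerivAt (fun x : ℝ => x ^ 2 + 1) (2 * x) x := by
    simpa using (hasDerivAt_pow 2 x).add_const (1 : ℝ)
  exact ((h1.log (argp hM x).ne').sub (h2.log (argq x).ne')).const_mul _

theorem hf_cont {M : ℝ} (hM : 1 ≤ M) : Continuous (hf M) :=
  continuous_iff_continuousAt.2 fun x => (hf_deriv hM x).continuousAt

theorem hf_lip {M : ℝ} (hM : 1 ≤ M) (x y : ℝ) : |hf M x - hf M y| ≤ 1 / 2 * |x - y| := by
  have h := Convex.norm_image_sub_le_of_norm_hasDerivWithin_le (𝕜 := ℝ) (f := hf M)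
    (f' := fun x => 1 / 2 * (2 * x / (x ^ 2 + M ^ 2) - 2 * x / (x ^ 2 + 1))) (s := Set.univ)
    (x := y) (y := x) (C := 1 / 2) (fun z _ => (hf_deriv hM z).hasDerivWithinAt) ?_ convex_univ
    trivial trivial
  · simpa [Real.norm_eq_abs] using h
  · intro z _
    rw [Real.norm_eq_abs, abs_mul, abs_of_pos (by norm_num : (0 : ℝ) < 1 / 2)]
    have hM2 : (1 : ℝ) ≤ M ^ 2 := by nlinarith
    have hp : (0 : ℝ) < z ^ 2 + M ^ 2 := by nlinarith [sq_nonneg z]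
    have hq : (0 : ℝ) < z ^ 2 + 1 := by positivity
    have h1 : |2 * z / (z ^ 2 + M ^ 2) - 2 * z / (z ^ 2 + 1)| ≤ 1 := by
      have e : 2 * z / (z ^ 2 + M ^ 2) - 2 * z / (z ^ 2 + 1) =
          -(2 * z * (M ^ 2 - 1)) / ((z ^ 2 + M ^ 2) * (z ^ 2 + 1)) := by
        field_simp
        ring
      rw [e, abs_div, abs_of_pos (mul_pos hp hq), div_le_one (mul_pos hp hq), abs_neg, abs_mul,
        abs_of_nonneg (by linarith : (0 : ℝ) ≤ M ^ 2 - 1)]
      have h2 : |2 * z| ≤ z ^ 2 + 1 := by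
        rw [abs_le]
        constructor <;> nlinarith [sq_nonneg (z + 1), sq_nonneg (z - 1)]
      calc |2 * z| * (M ^ 2 - 1) ≤ (z ^ 2 + 1) * (z ^ 2 + M ^ 2) :=
            mul_le_mul h2 (by nlinarith [sq_nonneg z]) (by linarith) hq.le
        _ = (z ^ 2 + M ^ 2) * (z ^ 2 + 1) := mul_comm _ _
    linarith

/-- the power of `k + 1` in the hypotheses -/
noncomputable def yy (k : ℕ) : ℝ := ((k : ℝ) + 1) ^ (2 / 3 : ℝ)

theorem yy_pos (k : ℕ) : 0 < yy k := Real.rpow_pos_of_pos (by positivity) _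

theorem hf_bnd {M α : ℝ} (c₁ : ℝ) (hM : 1 ≤ M) (hα : 0 < α) (k : ℕ) (x : ℝ)
    (hx : α * yy k - c₁ ≤ x) :
    hf M x ≤ (2 * M ^ 2 / α ^ 2 + Real.log M * (2 * c₁ / α) ^ 2) / yy k ^ 2 := by
  have hy := yy_pos k
  have hl := Real.log_nonneg hM
  rcases le_or_gt (2 * c₁) (α * yy k) with h | h
  · have hx1 : α * yy k / 2 ≤ x := by linarith
    have hp : 0 < α * yy k / 2 := by positivity
    have hx0 : 0 < x := lt_of_lt_of_le hp hx1
    calc hf M x ≤ M ^ 2 / (2 * x ^ 2) := hf_le_inv hM hx0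
      _ ≤ M ^ 2 / (2 * (α * yy k / 2) ^ 2) := by gcongr
      _ = (2 * M ^ 2 / α ^ 2) / yy k ^ 2 := by field_simp
      _ ≤ _ := by
        apply div_le_div_of_nonneg_right _ (by positivity)
        have : 0 ≤ Real.log M * (2 * c₁ / α) ^ 2 := by positivity
        linarith
  · have h1 : yy k ≤ 2 * c₁ / α := by
      rw [le_div_iff₀ hα]
      linarith
    have h2 : yy k ^ 2 ≤ (2 * c₁ / α) ^ 2 := pow_le_pow_left₀ hy.le h1 2
    rw [le_div_iff₀ (by positivity)]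
    calc hf M x * yy k ^ 2 ≤ Real.log M * (2 * c₁ / α) ^ 2 :=
          mul_le_mul (hf_le_log hM x) h2 (by positivity) hl
      _ ≤ _ := by
        have : 0 ≤ 2 * M ^ 2 / α ^ 2 := by positivity
        linarith

theorem summ_rpow (s : ℝ) (hs : 1 < s) : Summable fun k : ℕ => 1 / ((k : ℝ) + 1) ^ s := by
  have h := (summable_nat_add_iff 1).2 (Real.summable_one_div_nat_rpow.2 hs)
  simpa using h

theorem summ_yy : Summable fun k : ℕ => 1 / yy k ^ 2 := by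
  refine (summ_rpow (4 / 3) (by norm_num)).congr fun k => ?_
  unfold yy
  rw [← Real.rpow_natCast, ← Real.rpow_mul (by positivity)]
  norm_num

theorem summ_yy2 : Summable fun k : ℕ => 1 / yy k ^ (7 / 4 : ℝ) := by
  refine (summ_rpow (7 / 6) (by norm_num)).congr fun k => ?_
  unfold yy
  rw [← Real.rpow_mul (by positivity)]
  norm_num

theorem summ_hf {M α c₁ : ℝ} (hM : 1 ≤ M) (hα : 0 < α) (a : ℕ → ℝ)
    (ha : ∀ k : ℕ, α * ((k : ℝ) + 1) ^ (2 / 3 : ℝ) - c₁ ≤ a k) :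
    Summable fun k => hf M (a k) := by
  refine Summable.of_nonneg_of_le (fun k => hf_nonneg hM _)
    (fun k => hf_bnd c₁ hM hα k _ (ha k)) ?_
  refine (summ_yy.mul_left (2 * M ^ 2 / α ^ 2 + Real.log M * (2 * c₁ / α) ^ 2)).congr fun k => ?_
  rw [mul_one_div]

theorem tendsto_a {α c₁ : ℝ} (hα : 0 < α) (a : ℕ → ℝ)
    (ha : ∀ k : ℕ, α * ((k : ℝ) + 1) ^ (2 / 3 : ℝ) - c₁ ≤ a k) : Tendsto a atTop atTop := by
  refine tendsto_atTop_mono ha ?_
  have h1 : Tendsto (fun k : ℕ => (k : ℝ) + 1) atTop atTop :=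
    tendsto_atTop_add_const_right _ _ tendsto_natCast_atTop_atTop
  have h2 := (tendsto_rpow_atTop (by norm_num : (0 : ℝ) < 2 / 3)).comp h1
  have h3 := h2.const_mul_atTop hα
  have h4 := tendsto_atTop_add_const_right _ (-c₁) h3
  exact h4

end Pool.Agent.Y461.SA
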