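import Pool.Agent.Y782.SA.Stm

/-!
# Project SA, job SA-LIM: `S_LIM`, `S_BC`, `S_LOG`
-/

set_option autoImplicit false

open MeasureTheory ProbabilityTheory Set Filter Topology
open scoped NNReal ENNReal

namespace Pool.Agent.Y461.SA

open Pool.Agent.Y782.SA

theorem sq_le4 (x y c : ℝ) : ENNReal.ofReal ((x - y) ^ 2) ≤
    2 * ENNReal.ofReal ((x - c) ^ 2) + 2 * ENNReal.ofReal ((y - c) ^ 2) := by
  have h2 : (2 : ℝ≥0∞) = ENNReal.ofReal 2 := by simp
  rw [h2, ← ENNReal.ofReal_mul (by norm_num), ← ENNReal.ofReal_mul (by norm_num),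
    ← ENNReal.ofReal_add (by positivity) (by positivity)]
  apply ENNReal.ofReal_le_ofReal
  nlinarith [sq_nonneg (x - c + (y - c))]

theorem lim : S_LIM := by
  intro Ω _ P _ X Y V hV hX hlim hvar
  have hY : AEMeasurable Y P := aemeasurable_of_tendsto_metrizable_ae atTop hX hlim
  refine ⟨hY, ?_⟩
  obtain ⟨Z, hZm, hZ⟩ : ∃ Z : ℕ → Ω → ℝ, (∀ n, Measurable (Z n)) ∧ ∀ n, X n =ᵐ[P] Z n :=
    ⟨fun n => (hX n).mk (X n), fun n => (hX n).measurable_mk, fun n => (hX n).ae_eq_mk⟩
  have hlimZ : ∀ᵐ ω ∂P, Tendsto (fun n => Z n ω) atTop (𝓝 (Y ω)) := by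
    have h1 : ∀ᵐ ω ∂P, ∀ n, X n ω = Z n ω := ae_all_iff.2 fun n => hZ n
    filter_upwards [hlim, h1] with ω h2 h3
    have h4 : (fun n => Z n ω) = fun n => X n ω := funext fun n => (h3 n).symm
    rw [h4]
    exact h2
  have hfm : ∀ n, Measurable fun p : Ω × Ω => ENNReal.ofReal ((Z n p.2 - Z n p.1) ^ 2) := fun n =>
    ((((hZm n).comp measurable_snd).sub ((hZm n).comp measurable_fst)).pow_const 2).ennreal_ofReal
  obtain ⟨g, hg⟩ : ∃ g : ℕ → Ω → ℝ≥0∞, ∀ n w, g n w =
      ∫⁻ ω, ENNReal.ofReal ((Z n ω - Z n w) ^ 2) ∂P := ⟨_, fun _ _ => rfl⟩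
  have hgm : ∀ n, Measurable (g n) := fun n => by
    have h1 : g n = fun w => ∫⁻ ω, ENNReal.ofReal ((Z n ω - Z n w) ^ 2) ∂P := funext (hg n)
    rw [h1]
    exact (hfm n).lintegral_prod_right'
  have hgb : ∀ n, ∫⁻ w, g n w ∂P ≤ ENNReal.ofReal (4 * V) := by
    intro n
    obtain ⟨c, hc⟩ := hvar n
    have hc' : ∫⁻ ω, ENNReal.ofReal ((Z n ω - c) ^ 2) ∂P ≤ ENNReal.ofReal V := by
      refine le_trans (le_of_eq (lintegral_congr_ae ?_)) hc
      filter_upwards [hZ n] with ω hω
      rw [hω]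
    have h1 : ∀ w, g n w ≤ 2 * ENNReal.ofReal V + 2 * ENNReal.ofReal ((Z n w - c) ^ 2) := by
      intro w
      rw [hg]
      calc ∫⁻ ω, ENNReal.ofReal ((Z n ω - Z n w) ^ 2) ∂P
          ≤ ∫⁻ ω, (2 * ENNReal.ofReal ((Z n ω - c) ^ 2) +
              2 * ENNReal.ofReal ((Z n w - c) ^ 2)) ∂P := lintegral_mono fun ω => sq_le4 _ _ c
        _ = 2 * ∫⁻ ω, ENNReal.ofReal ((Z n ω - c) ^ 2) ∂P +
              2 * ENNReal.ofReal ((Z n w - c) ^ 2) := by
            rw [lintegral_add_right _ measurable_const, lintegral_const, measure_univ, mul_one,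
              lintegral_const_mul]
            exact (((hZm n).sub_const c).pow_const 2).ennreal_ofReal
        _ ≤ _ := by gcongr
    calc ∫⁻ w, g n w ∂P ≤ ∫⁻ w, (2 * ENNReal.ofReal V +
          2 * ENNReal.ofReal ((Z n w - c) ^ 2)) ∂P := lintegral_mono h1
      _ = 2 * ENNReal.ofReal V + 2 * ∫⁻ w, ENNReal.ofReal ((Z n w - c) ^ 2) ∂P := by
          rw [lintegral_add_left measurable_const, lintegral_const, measure_univ, mul_one,
            lintegral_const_mul]
          exact (((hZm n).sub_const c).pow_const 2).ennreal_ofReal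
      _ ≤ 2 * ENNReal.ofReal V + 2 * ENNReal.ofReal V := by gcongr
      _ = ENNReal.ofReal (4 * V) := by
          have h2 : (2 : ℝ≥0∞) = ENNReal.ofReal 2 := by simp
          rw [h2, ← ENNReal.ofReal_mul (by norm_num), ← ENNReal.ofReal_add (by positivity)
            (by positivity)]
          congr 1
          ring
  have hfat : ∫⁻ w, liminf (fun n => g n w) atTop ∂P ≤ ENNReal.ofReal (4 * V) := by
    refine le_trans (lintegral_liminf_le hgm) ?_
    refine liminf_le_of_le (by isBoundedDefault) fun b hb => ?_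
    obtain ⟨n, hn⟩ := hb.exists
    exact le_trans hn (hgb n)
  obtain ⟨w, hw1, hw2⟩ := exists_notMem_null_le_lintegral
    (Measurable.liminf hgm).aemeasurable (ae_iff.1 hlimZ)
  have hw1' : Tendsto (fun n => Z n w) atTop (𝓝 (Y w)) := by
    by_contra h
    exact hw1 h
  refine ⟨Y w, le_trans ?_ (le_trans hw2 hfat)⟩
  have h1 : ∫⁻ ω, ENNReal.ofReal ((Y ω - Y w) ^ 2) ∂P ≤
      ∫⁻ ω, liminf (fun n => ENNReal.ofReal ((Z n ω - Z n w) ^ 2)) atTop ∂P := by
    refine lintegral_mono_ae ?_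
    filter_upwards [hlimZ] with ω hω
    have h2 : Tendsto (fun n => ENNReal.ofReal ((Z n ω - Z n w) ^ 2)) atTop
        (𝓝 (ENNReal.ofReal ((Y ω - Y w) ^ 2))) :=
      ENNReal.tendsto_ofReal ((hω.sub hw1').pow 2)
    rw [h2.liminf_eq]
  refine le_trans h1 (le_trans (lintegral_liminf_le fun n =>
    (((hZm n).sub_const _).pow_const 2).ennreal_ofReal) ?_)
  refine le_of_eq (congrArg (fun f => liminf f atTop) (funext fun n => ?_))
  rw [hg]

theorem bc : S_BC := by
  intro Ω _ P _ X V hV hVs hX hb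
  have hm : ∀ j, AEMeasurable (fun ω => ENNReal.ofReal (X j ω ^ 2)) P := fun j =>
    ((hX j).pow_const 2).ennreal_ofReal
  have h1 : ∫⁻ ω, ∑' j, ENNReal.ofReal (X j ω ^ 2) ∂P ≠ ∞ := by
    rw [lintegral_tsum hm]
    refine ne_top_of_le_ne_top ?_ (ENNReal.tsum_le_tsum hb)
    rw [← ENNReal.ofReal_tsum_of_nonneg hV hVs]
    exact ENNReal.ofReal_ne_top
  have h2 := ae_lt_top' (AEMeasurable.ennreal_tsum hm) h1
  filter_upwards [h2] with ω hω
  have h3 := ENNReal.tendsto_atTop_zero_of_tsum_ne_top hω.ne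
  have h4 : Tendsto (fun j => X j ω ^ 2) atTop (𝓝 0) := by
    have h5 := (ENNReal.tendsto_toReal (by simp : (0 : ℝ≥0∞) ≠ ∞)).comp h3
    have h6 : (ENNReal.toReal ∘ fun j => ENNReal.ofReal (X j ω ^ 2)) = fun j => X j ω ^ 2 := by
      funext j
      exact ENNReal.toReal_ofReal (sq_nonneg _)
    rw [h6] at h5
    simpa using h5
  have h7 : Tendsto (fun j => √(X j ω ^ 2)) atTop (𝓝 0) := by
    simpa using h4.sqrt
  have h8 : Tendsto (fun j => |X j ω|) atTop (𝓝 0) := by
    simpa only [Real.sqrt_sq_eq_abs] using h7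
  exact (tendsto_zero_iff_abs_tendsto_zero _).2 h8

theorem log : S_LOG := by
  intro κ D L hκ hD
  have hD' : (0 : ℝ) < D := by exact_mod_cast hD
  have key : ∀ n : ℕ, ∑ k ∈ Finset.range n, 1 / (κ * (k + 1) + D) ≤
      (Real.log (κ * n + D) - Real.log D) / κ := by
    intro n
    induction n with
    | zero => simp
    | succ n ih =>
      rw [Finset.sum_range_succ]
      have ha : 0 < κ * n + D := by positivity
      have hb : 0 < κ * (n + 1) + D := by positivity
      have h1 := Real.log_le_sub_one_of_pos (div_pos ha hb)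
      rw [Real.log_div ha.ne' hb.ne'] at h1
      have h2 : (κ * n + D) / (κ * (n + 1) + D) - 1 = -(κ / (κ * (n + 1) + D)) := by
        field_simp
        ring
      rw [h2] at h1
      have h3 : 1 / (κ * ((n : ℝ) + 1) + D) ≤
          (Real.log (κ * (n + 1) + D) - Real.log (κ * n + D)) / κ := by
        rw [le_div_iff₀ hκ]
        have h4 : 1 / (κ * ((n : ℝ) + 1) + D) * κ = κ / (κ * (n + 1) + D) := by ring
        rw [h4]
        linarith
      have h5 : (Real.log (κ * ((n + 1 : ℕ) : ℝ) + D) - Real.log D) / κ =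
          (Real.log (κ * n + D) - Real.log D) / κ +
          (Real.log (κ * (n + 1) + D) - Real.log (κ * n + D)) / κ := by
        push_cast
        ring
      rw [h5]
      exact add_le_add ih h3
  have h1 := key (L * D)
  have h2 : Real.log (κ * ((L * D : ℕ) : ℝ) + D) - Real.log D = Real.log (1 + κ * L) := by
    rw [← Real.log_div (by positivity) hD'.ne']
    congr 1
    push_cast
    field_simp
    ring
  rw [h2] at h1
  exact h1

end Pool.Agent.Y461.SA
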