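import Pool.Agent.Y461.SA.Hf

/-!
# Project SA, job SA-RIG: `S_RIG`
-/

set_option autoImplicit false

open MeasureTheory ProbabilityTheory Set Filter Topology
open scoped NNReal ENNReal

namespace Pool.Agent.Y461.SA

open Pool.Agent.Y782.SA

/-- the normalised test function -/
noncomputable def hj (j : ℕ) (x : ℝ) : ℝ := hf (MM j) x / (j ^ 2 * Real.log 2)

theorem MM_one' (j : ℕ) : 1 ≤ MM j := one_le_pow₀ (by norm_num)

theorem hj_nonneg (j : ℕ) (x : ℝ) : 0 ≤ hj j x := by
  have h1 := hf_nonneg (MM_one' j) x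
  have h2 : 0 < Real.log 2 := Real.log_pos (by norm_num)
  unfold hj
  positivity

theorem hj_meas (j : ℕ) : Measurable (hj j) := ((hf_cont (MM_one' j)).measurable).div_const _

theorem hj_lim (x : ℝ) : Tendsto (fun j => hj j x) atTop (𝓝 1) := by
  have hlog : 0 < Real.log 2 := Real.log_pos (by norm_num)
  have hlM : ∀ j, Real.log (MM j) = j ^ 2 * Real.log 2 := fun j => by
    unfold MM
    rw [Real.log_pow]
    push_cast
    ring
  have hup : ∀ᶠ j : ℕ in atTop, hj j x ≤ 1 := by
    filter_upwards [eventually_ge_atTop 1] with j hj1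
    have hj2 : (0 : ℝ) < j := by exact_mod_cast hj1
    unfold hj
    rw [div_le_one (by positivity), ← hlM]
    exact hf_le_log (MM_one' j) x
  have hlo : ∀ᶠ j : ℕ in atTop, 1 - (1 / 2 * Real.log (x ^ 2 + 1) / Real.log 2) / (j : ℝ) ^ 2 ≤
      hj j x := by
    filter_upwards [eventually_ge_atTop 1] with j hj1
    have hj2 : (0 : ℝ) < j := by exact_mod_cast hj1
    have h1 : j ^ 2 * Real.log 2 - 1 / 2 * Real.log (x ^ 2 + 1) ≤ hf (MM j) x := by
      rw [hf_eq (MM_one' j), ← hlM]
      have h2 : 2 * Real.log (MM j) ≤ Real.log (x ^ 2 + MM j ^ 2) := by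
        have h3 : Real.log (MM j ^ 2) ≤ Real.log (x ^ 2 + MM j ^ 2) :=
          Real.log_le_log (pow_pos (by have := MM_one' j; linarith) 2)
            (by have := sq_nonneg x; linarith)
        rw [Real.log_pow] at h3
        exact_mod_cast h3
      linarith
    unfold hj
    rw [le_div_iff₀ (by positivity)]
    have e : (1 - (1 / 2 * Real.log (x ^ 2 + 1) / Real.log 2) / (j : ℝ) ^ 2) *
        (j ^ 2 * Real.log 2) = j ^ 2 * Real.log 2 - 1 / 2 * Real.log (x ^ 2 + 1) := by
      field_simp
    rw [e]
    exact h1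
  have hlim : Tendsto (fun j : ℕ => 1 - (1 / 2 * Real.log (x ^ 2 + 1) / Real.log 2) / (j : ℝ) ^ 2)
      atTop (𝓝 1) := by
    have h1 : Tendsto (fun j : ℕ => (j : ℝ) ^ 2) atTop atTop :=
      (tendsto_pow_atTop (by norm_num)).comp tendsto_natCast_atTop_atTop
    have h2 := (tendsto_const_nhds (x := 1 / 2 * Real.log (x ^ 2 + 1) / Real.log 2)).div_atTop h1
    simpa using h2.const_sub 1
  exact tendsto_of_tendsto_of_tendsto_of_le_of_le' hlim tendsto_const_nhds hlo hup

theorem rig : S_RIG := by
  classical
  intro c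
  refine ⟨fun μ => limsup (fun j => ENNReal.ofReal (c j -
    (∫⁻ x, ENNReal.ofReal (hj j x) ∂μ).toReal)) atTop, ?_, ?_⟩
  · refine Measurable.limsup fun j => ?_
    exact ((Measure.measurable_lintegral (hj_meas j).ennreal_ofReal).ennreal_toReal.const_sub
      (c j)).ennreal_ofReal
  · intro α c₁ a hα ha hlim A hA hAb
    have hfin : {k : ℕ | a k ∈ A}.Finite := by
      obtain ⟨R, hR⟩ := hAb.subset_closedBall 0
      have h1 := (tendsto_a hα a ha).eventually_gt_atTop R
      rw [← Nat.cofinite_eq_atTop] at h1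
      have h2 : {k : ℕ | ¬ R < a k}.Finite := h1
      refine h2.subset fun k hk => ?_
      have h3 := hR hk
      rw [Metric.mem_closedBall, dist_zero_right, Real.norm_eq_abs] at h3
      exact not_lt.2 (le_trans (le_abs_self _) h3)
    obtain ⟨F, hF⟩ : ∃ F : Finset ℕ, ∀ k, k ∈ F ↔ a k ∈ A :=
      ⟨hfin.toFinset, fun k => by simp⟩
    -- left side
    have hleft : (Measure.sum fun k => Measure.dirac (a k)) A = (F.card : ℝ≥0∞) := by
      rw [Measure.sum_apply _ hA, tsum_eq_sum (s := F)]
      · have h1 : ∀ k ∈ F, (Measure.dirac (a k)) A = (1 : ℝ≥0∞) := fun k hk => by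
          rw [Measure.dirac_apply' _ hA, Set.indicator_of_mem ((hF k).1 hk)]
          rfl
        rw [Finset.sum_congr rfl h1, Finset.sum_const]
        simp
      · intro k hk
        rw [Measure.dirac_apply' _ hA, Set.indicator_of_notMem (fun h => hk ((hF k).2 h))]
    -- right side
    have hs : ∀ j, Summable fun k => hj j (a k) := fun j =>
      (summ_hf (MM_one' j) hα a ha).div_const _
    have hT : ∀ j, TT j a = ∑' k, hj j (a k) := fun j => by
      unfold TT hj
      rw [tsum_div_const]
    have hint : ∀ j, (∫⁻ x, ENNReal.ofReal (hj j x)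
        ∂((Measure.sum fun k => Measure.dirac (a k)).restrict Aᶜ)).toReal =
        TT j a - ∑ k ∈ F, hj j (a k) := by
      intro j
      have hm : Measurable (Aᶜ.indicator fun x => ENNReal.ofReal (hj j x)) :=
        (hj_meas j).ennreal_ofReal.indicator hA.compl
      rw [← lintegral_indicator hA.compl, lintegral_sum_measure]
      have h1 : ∀ k, ∫⁻ x, Aᶜ.indicator (fun x => ENNReal.ofReal (hj j x)) x
          ∂(Measure.dirac (a k)) = ENNReal.ofReal (if k ∈ F then 0 else hj j (a k)) := by
        intro k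
        rw [lintegral_dirac' _ hm]
        by_cases hk : k ∈ F
        · rw [if_pos hk, ENNReal.ofReal_zero]
          have h2 : a k ∉ Aᶜ := fun h => h ((hF k).1 hk)
          exact Set.indicator_of_notMem h2 _
        · rw [if_neg hk]
          have h2 : a k ∈ Aᶜ := fun h => hk ((hF k).2 h)
          exact Set.indicator_of_mem h2 _
      simp only [h1]
      have hs0 : Summable fun k => if k ∈ F then hj j (a k) else 0 :=
        summable_of_ne_finset_zero (s := F) fun k hk => by rw [if_neg hk]
      have e : (fun k => if k ∈ F then (0 : ℝ) else hj j (a k)) =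
          fun k => hj j (a k) - if k ∈ F then hj j (a k) else 0 := by
        funext k
        by_cases hk : k ∈ F
        · simp [hk]
        · simp [hk]
      have hs1 : Summable fun k => if k ∈ F then (0 : ℝ) else hj j (a k) := by
        rw [e]
        exact (hs j).sub hs0
      have hn : ∀ k, 0 ≤ if k ∈ F then (0 : ℝ) else hj j (a k) := by
        intro k
        split
        · exact le_rfl
        · exact hj_nonneg j _
      rw [← ENNReal.ofReal_tsum_of_nonneg hn hs1, ENNReal.toReal_ofReal (tsum_nonneg hn), e,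
        (hs j).tsum_sub hs0, ← hT, tsum_eq_sum (s := F) (fun k hk => by rw [if_neg hk])]
      congr 1
      exact Finset.sum_congr rfl fun k hk => by rw [if_pos hk]
    have hlim2 : Tendsto (fun j => c j - (∫⁻ x, ENNReal.ofReal (hj j x)
        ∂((Measure.sum fun k => Measure.dirac (a k)).restrict Aᶜ)).toReal) atTop
        (𝓝 (F.card : ℝ)) := by
      have h1 : Tendsto (fun j => ∑ k ∈ F, hj j (a k)) atTop (𝓝 (∑ _k ∈ F, (1 : ℝ))) :=
        tendsto_finsetSum F fun k _ => hj_lim (a k)
      have h2 := h1.sub hlim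
      simp only [Finset.sum_const, nsmul_eq_mul, mul_one, sub_zero] at h2
      refine h2.congr fun j => ?_
      rw [hint j]
      ring
    have hlim3 := (ENNReal.tendsto_ofReal hlim2).limsup_eq
    rw [hleft]
    refine Eq.trans ?_ hlim3.symm
    rw [ENNReal.ofReal_natCast]

end Pool.Agent.Y461.SA
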