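import Pool.Agent.Y461.SA.Hf

/-!
# Project SA, job SA-SUM: `S_SUM` and `S_TAIL`
-/

set_option autoImplicit false

open MeasureTheory ProbabilityTheory Set Filter Topology
open scoped NNReal ENNReal

namespace Pool.Agent.Y461.SA

open Pool.Agent.Y782.SA

theorem sum : S_SUM := by
  intro M α c₁ a r l hM hα ha
  refine ⟨summ_hf hM hα a ha, fun hr hl hlim => ?_⟩
  obtain ⟨C, hC⟩ : ∃ C : ℝ, C = 2 * M ^ 2 / α ^ 2 + Real.log M * (2 * c₁ / α) ^ 2 := ⟨_, rfl⟩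
  have hC0 : 0 ≤ C := by
    have := Real.log_nonneg hM
    rw [hC]; positivity
  have hS : Summable fun k : ℕ => C / yy k ^ 2 := by
    refine (summ_yy.mul_left C).congr fun k => ?_
    rw [mul_one_div]
  have h1 : ∀ p, ∑ k ∈ Finset.range (r p), hf M (l p k) =
      ∑' k, if k < r p then hf M (l p k) else 0 := by
    intro p
    rw [tsum_eq_sum (s := Finset.range (r p))]
    · refine Finset.sum_congr rfl fun k hk => ?_
      rw [if_pos (Finset.mem_range.1 hk)]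
    · intro k hk
      rw [if_neg (by simpa using hk)]
  simp only [h1]
  refine tendsto_tsum_of_dominated_convergence hS (fun k => ?_) (Eventually.of_forall fun p k => ?_)
  · have h2 : Tendsto (fun p => hf M (l p k)) atTop (𝓝 (hf M (a k))) :=
      ((hf_cont hM).tendsto _).comp (hlim k)
    refine h2.congr' ?_
    filter_upwards [hr.eventually_gt_atTop k] with p hp
    rw [if_pos hp]
  · split
    · rename_i hk
      rw [Real.norm_eq_abs, abs_of_nonneg (hf_nonneg hM _), hC]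
      exact hf_bnd c₁ hM hα k _ (hl p k hk)
    · rw [norm_zero]
      exact div_nonneg hC0 (by positivity)

theorem MM_one (j : ℕ) : 1 ≤ MM j := one_le_pow₀ (by norm_num)

theorem pow_bd (j : ℕ) (hj : 1 ≤ j) (c : ℝ) (hc : c ≤ j) (m : ℕ) (hm : 1 ≤ m) :
    c ≤ (2 : ℝ) ^ (m * j ^ 2) := by
  have h1 : j ≤ m * j ^ 2 := by nlinarith
  have h2 : j < 2 ^ (m * j ^ 2) := lt_of_le_of_lt h1 (Nat.lt_two_pow_self)
  have h3 : (j : ℝ) < (2 : ℝ) ^ (m * j ^ 2) := by exact_mod_cast h2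
  linarith

/-- the difference for one index -/
theorem one_diff {α c₁ c₂ : ℝ} (hα : 0 < α) (hc₁ : 0 ≤ c₁) (hc₂ : 0 ≤ c₂) {M Λ L : ℝ}
    (hM : 1 ≤ M) (hΛ : 1 ≤ Λ) (hΛc : c₁ ≤ Λ) (hL : c₂ * (1 + Λ + c₁) ≤ L) (hL0 : 0 < L) (k : ℕ)
    (a b : ℝ) (ha : α * yy k - c₁ ≤ a) (hab : a ≤ b)
    (hb : c₂ * (1 + |a|) ≤ L → b ≤ a + c₂ * (1 + |a|) ^ 2 / L) :
    |hf M a - hf M b| ≤ c₂ * ((2 + c₁) * Λ) ^ 2 / L * (((1 + c₁) * Λ) ^ 2 / α ^ 2) * (1 / yy k ^ 2) +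
      M ^ 2 / Λ ^ (1 / 4 : ℝ) * ((α / 2) ^ (7 / 4 : ℝ))⁻¹ * (1 / yy k ^ (7 / 4 : ℝ)) := by
  have hy := yy_pos k
  have hΛ0 : 0 < Λ := by linarith
  have hp1 : 0 ≤ c₂ * ((2 + c₁) * Λ) ^ 2 / L * (((1 + c₁) * Λ) ^ 2 / α ^ 2) * (1 / yy k ^ 2) := by
    positivity
  have hp2 : 0 ≤ M ^ 2 / Λ ^ (1 / 4 : ℝ) * ((α / 2) ^ (7 / 4 : ℝ))⁻¹ *
      (1 / yy k ^ (7 / 4 : ℝ)) := by positivity
  rcases le_or_gt a Λ with h | h
  · -- few indices
    have h1 : |a| ≤ Λ + c₁ := by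
      rw [abs_le]
      constructor
      · have : 0 ≤ α * yy k := by positivity
        linarith
      · linarith
    have h2 : c₂ * (1 + |a|) ≤ L := by
      refine le_trans ?_ hL
      apply mul_le_mul_of_nonneg_left _ hc₂
      linarith
    have h3 := hb h2
    have h4 : (1 + |a|) ^ 2 ≤ ((2 + c₁) * Λ) ^ 2 := by
      apply pow_le_pow_left₀ (by positivity)
      nlinarith
    have h5 : |hf M a - hf M b| ≤ c₂ * ((2 + c₁) * Λ) ^ 2 / L := by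
      have h6 := hf_lip hM a b
      have h7 : |a - b| ≤ c₂ * ((2 + c₁) * Λ) ^ 2 / L := by
        rw [abs_sub_comm, abs_of_nonneg (by linarith)]
        refine le_trans (by linarith : b - a ≤ c₂ * (1 + |a|) ^ 2 / L) ?_
        gcongr
      have h8 : 0 ≤ |a - b| := abs_nonneg _
      linarith
    have h9 : 1 ≤ ((1 + c₁) * Λ) ^ 2 / α ^ 2 * (1 / yy k ^ 2) := by
      rw [div_mul_div_comm, mul_one, ← mul_pow, one_le_div (by positivity)]
      apply pow_le_pow_left₀ (by positivity)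
      nlinarith
    calc |hf M a - hf M b| ≤ c₂ * ((2 + c₁) * Λ) ^ 2 / L * 1 := by rw [mul_one]; exact h5
      _ ≤ c₂ * ((2 + c₁) * Λ) ^ 2 / L * (((1 + c₁) * Λ) ^ 2 / α ^ 2 * (1 / yy k ^ 2)) :=
          mul_le_mul_of_nonneg_left h9 (by positivity)
      _ = c₂ * ((2 + c₁) * Λ) ^ 2 / L * (((1 + c₁) * Λ) ^ 2 / α ^ 2) * (1 / yy k ^ 2) := by ring
      _ ≤ _ := by linarith
  · have ha0 : 0 < a := by linarith
    have h1 : |hf M a - hf M b| ≤ hf M a := by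
      rw [abs_of_nonneg (by have := hf_anti hM ha0.le hab; linarith)]
      have := hf_nonneg hM b
      linarith
    have h2 : α / 2 * yy k ≤ a := by linarith
    have h3 : Λ ^ (1 / 4 : ℝ) * (α / 2 * yy k) ^ (7 / 4 : ℝ) ≤ a ^ 2 := by
      have e : a ^ 2 = a ^ (1 / 4 : ℝ) * a ^ (7 / 4 : ℝ) := by
        rw [← Real.rpow_add ha0]
        norm_num
      rw [e]
      exact mul_le_mul (Real.rpow_le_rpow hΛ0.le h.le (by norm_num))
        (Real.rpow_le_rpow (by positivity) h2 (by norm_num)) (by positivity) (by positivity)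
    calc |hf M a - hf M b| ≤ hf M a := h1
      _ ≤ M ^ 2 / (2 * a ^ 2) := hf_le_inv hM ha0
      _ ≤ M ^ 2 / a ^ 2 := by
          apply div_le_div_of_nonneg_left (by positivity) (by positivity)
          nlinarith [sq_nonneg a]
      _ ≤ M ^ 2 / (Λ ^ (1 / 4 : ℝ) * (α / 2 * yy k) ^ (7 / 4 : ℝ)) := by
          apply div_le_div_of_nonneg_left (by positivity) (by positivity) h3
      _ = M ^ 2 / Λ ^ (1 / 4 : ℝ) * ((α / 2) ^ (7 / 4 : ℝ))⁻¹ * (1 / yy k ^ (7 / 4 : ℝ)) := by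
          rw [Real.mul_rpow (by positivity) hy.le]
          field_simp
      _ ≤ _ := by linarith

theorem tail : S_TAIL := by
  intro α c₁ c₂ a b hα hc₁ hc₂ ha hab hb
  obtain ⟨W1, hW1⟩ := summ_yy
  obtain ⟨W2, hW2⟩ := summ_yy2
  -- the bound
  obtain ⟨K1, hK1⟩ : ∃ K1 : ℝ, K1 = c₂ * (2 + c₁) ^ 2 * (1 + c₁) ^ 2 / α ^ 2 * W1 := ⟨_, rfl⟩
  obtain ⟨K2, hK2⟩ : ∃ K2 : ℝ, K2 = ((α / 2) ^ (7 / 4 : ℝ))⁻¹ * W2 := ⟨_, rfl⟩
  have hlog : 0 < Real.log 2 := Real.log_pos (by norm_num)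
  have hmain : ∀ᶠ j : ℕ in atTop, |TT j a - TT j (b j)| ≤
      (K1 * (1 / 2 : ℝ) ^ (4 * j ^ 2) + K2 * ((1 / 2 : ℝ) ^ (j ^ 2)) ^ (1 / 4 : ℝ)) /
        Real.log 2 := by
    filter_upwards [eventually_ge_atTop (max 1 (max ⌈c₁⌉₊ ⌈c₂ * (2 + c₁)⌉₊))] with j hj
    have hj1 : 1 ≤ j := le_trans (le_max_left _ _) hj
    have hj2 : c₁ ≤ j := le_trans (Nat.le_ceil _)
      (by exact_mod_cast le_trans (le_trans (le_max_left _ _) (le_max_right _ _)) hj)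
    have hj3 : c₂ * (2 + c₁) ≤ j := le_trans (Nat.le_ceil _)
      (by exact_mod_cast le_trans (le_trans (le_max_right _ _) (le_max_right _ _)) hj)
    obtain ⟨Λ, hΛ⟩ : ∃ Λ : ℝ, Λ = 2 ^ (9 * j ^ 2) := ⟨_, rfl⟩
    have hΛ1 : 1 ≤ Λ := by rw [hΛ]; exact one_le_pow₀ (by norm_num)
    have hΛc : c₁ ≤ Λ := by rw [hΛ]; exact pow_bd j hj1 _ hj2 9 (by norm_num)
    have hLe : ((LL j : ℕ) : ℝ) = Λ * 2 ^ (31 * j ^ 2) := by
      unfold LL
      rw [hΛ, ← pow_add]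
      push_cast
      congr 1
      ring
    have hL0 : (0 : ℝ) < (LL j : ℕ) := by rw [hLe]; positivity
    have hL : c₂ * (1 + Λ + c₁) ≤ (LL j : ℕ) := by
      have h1 : c₂ * (2 + c₁) ≤ 2 ^ (31 * j ^ 2) := pow_bd j hj1 _ hj3 31 (by norm_num)
      calc c₂ * (1 + Λ + c₁) ≤ c₂ * ((2 + c₁) * Λ) :=
            mul_le_mul_of_nonneg_left (by nlinarith) hc₂
        _ = Λ * (c₂ * (2 + c₁)) := by ring
        _ ≤ Λ * 2 ^ (31 * j ^ 2) := mul_le_mul_of_nonneg_left h1 (by linarith)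
        _ = _ := hLe.symm
    have hM := MM_one j
    have hd : ∀ k, |hf (MM j) (a k) - hf (MM j) (b j k)| ≤
        c₂ * ((2 + c₁) * Λ) ^ 2 / (LL j : ℕ) * (((1 + c₁) * Λ) ^ 2 / α ^ 2) * (1 / yy k ^ 2) +
        MM j ^ 2 / Λ ^ (1 / 4 : ℝ) * ((α / 2) ^ (7 / 4 : ℝ))⁻¹ * (1 / yy k ^ (7 / 4 : ℝ)) :=
      fun k => one_diff hα hc₁ hc₂ hM hΛ1 hΛc hL hL0 k _ _ (ha k) (hab j k) (hb j k)
    have hsum := (hW1.mul_left (c₂ * ((2 + c₁) * Λ) ^ 2 / (LL j : ℕ) *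
      (((1 + c₁) * Λ) ^ 2 / α ^ 2))).add
      (hW2.mul_left (MM j ^ 2 / Λ ^ (1 / 4 : ℝ) * ((α / 2) ^ (7 / 4 : ℝ))⁻¹))
    have h1 := tsum_of_norm_bounded hsum (f := fun k => hf (MM j) (a k) - hf (MM j) (b j k)) hd
    have hs1 := summ_hf hM hα a ha
    have hs2 := summ_hf hM hα (b j) fun k => le_trans (ha k) (hab j k)
    rw [hs1.tsum_sub hs2, Real.norm_eq_abs] at h1
    have e1 : c₂ * ((2 + c₁) * Λ) ^ 2 / (LL j : ℕ) * (((1 + c₁) * Λ) ^ 2 / α ^ 2) * W1 =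
        K1 * (1 / 2 : ℝ) ^ (4 * j ^ 2) := by
      have e2 : ((LL j : ℕ) : ℝ) = Λ ^ 4 * 2 ^ (4 * j ^ 2) := by
        unfold LL
        rw [hΛ, ← pow_mul, ← pow_add]
        push_cast
        congr 1
        ring
      rw [e2, hK1, one_div, inv_pow]
      field_simp
    have e3 : MM j ^ 2 / Λ ^ (1 / 4 : ℝ) = ((1 / 2 : ℝ) ^ (j ^ 2)) ^ (1 / 4 : ℝ) := by
      have e4 : MM j ^ 2 = (MM j ^ 8) ^ (1 / 4 : ℝ) := by
        rw [← Real.rpow_natCast (MM j) 8, ← Real.rpow_mul (by linarith),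
          ← Real.rpow_natCast (MM j) 2]
        norm_num
      rw [e4, ← Real.div_rpow (by positivity) (by linarith)]
      congr 1
      unfold MM
      rw [hΛ, one_div, inv_pow, ← pow_mul, div_eq_iff (by positivity), eq_comm,
        inv_mul_eq_iff_eq_mul₀ (by positivity), ← pow_add]
      congr 1
      ring
    have e5 : MM j ^ 2 / Λ ^ (1 / 4 : ℝ) * ((α / 2) ^ (7 / 4 : ℝ))⁻¹ * W2 =
        K2 * ((1 / 2 : ℝ) ^ (j ^ 2)) ^ (1 / 4 : ℝ) := by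
      rw [e3, hK2]
      ring
    rw [e1, e5] at h1
    unfold TT
    rw [← sub_div, abs_div]
    have hj4 : (1 : ℝ) ≤ (j : ℝ) ^ 2 := by
      have : (1 : ℝ) ≤ j := by exact_mod_cast hj1
      nlinarith
    rw [abs_of_pos (by positivity : 0 < (j : ℝ) ^ 2 * Real.log 2)]
    apply div_le_div₀ (le_trans (abs_nonneg _) h1) h1 hlog
    nlinarith
  have hz1 : Tendsto (fun j : ℕ => (1 / 2 : ℝ) ^ (4 * j ^ 2)) atTop (𝓝 0) := by
    refine (tendsto_pow_atTop_nhds_zero_of_lt_one (by norm_num) (by norm_num)).comp ?_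
    exact tendsto_atTop_mono (fun j => by nlinarith : ∀ j : ℕ, j ≤ 4 * j ^ 2) tendsto_id
  have hz2 : Tendsto (fun j : ℕ => (1 / 2 : ℝ) ^ (j ^ 2)) atTop (𝓝 0) := by
    refine (tendsto_pow_atTop_nhds_zero_of_lt_one (by norm_num) (by norm_num)).comp ?_
    exact tendsto_atTop_mono (fun j => by nlinarith : ∀ j : ℕ, j ≤ j ^ 2) tendsto_id
  have hz3 : Tendsto (fun j : ℕ => ((1 / 2 : ℝ) ^ (j ^ 2)) ^ (1 / 4 : ℝ)) atTop (𝓝 0) := by
    have h := hz2.rpow_const (p := (1 / 4 : ℝ)) (Or.inr (by norm_num))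
    rwa [Real.zero_rpow (by norm_num)] at h
  have hz : Tendsto (fun j : ℕ => (K1 * (1 / 2 : ℝ) ^ (4 * j ^ 2) +
      K2 * ((1 / 2 : ℝ) ^ (j ^ 2)) ^ (1 / 4 : ℝ)) / Real.log 2) atTop (𝓝 0) := by
    have h := ((hz1.const_mul K1).add (hz3.const_mul K2)).div_const (Real.log 2)
    simpa using h
  exact squeeze_zero_norm' (by simpa only [Real.norm_eq_abs] using hmain) hz

end Pool.Agent.Y461.SA
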